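import Pool.Agent.H590.PL.Stm

/-!
# Planar case of MP_85210c_gt (project PL of helper590): task KEY (helper686)
-/

set_option autoImplicit false

noncomputable section

open MeasureTheory Filter Topology Set
open scoped BigOperators ENNReal

namespace H686PL

open H590PL

variable {κ : Type} [Fintype κ]

/-- the transformed vectors -/
def tr (a₁ a₂ a₃ a₄ : ℝ) (v : κ → P2) : κ → P2 :=
  fun k => (a₁ * (v k).1 + a₂ * (v k).2, a₃ * (v k).1 + a₄ * (v k).2)

/-- the linear map of the plane -/
def Lm (a₁ a₂ a₃ a₄ : ℝ) : P2 →ₗ[ℝ] P2 :=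
  Matrix.toLin (Module.Basis.finTwoProd ℝ) (Module.Basis.finTwoProd ℝ) !![a₁, a₃; a₂, a₄]

lemma Lm_apply (a₁ a₂ a₃ a₄ : ℝ) (x : P2) :
    Lm a₁ a₂ a₃ a₄ x = (a₁ * x.1 + a₃ * x.2, a₂ * x.1 + a₄ * x.2) := by
  unfold Lm
  rw [Matrix.toLin_finTwoProd_apply]

omit [Fintype κ] in
lemma ip_tr (a₁ a₂ a₃ a₄ : ℝ) (v : κ → P2) (k : κ) (x : P2) :
    ip (tr a₁ a₂ a₃ a₄ v k) x = ip (v k) (Lm a₁ a₂ a₃ a₄ x) := by
  rw [Lm_apply]
  unfold ip tr
  ring

lemma det_Lm (a₁ a₂ a₃ a₄ : ℝ) : LinearMap.det (Lm a₁ a₂ a₃ a₄) = a₁ * a₄ - a₃ * a₂ := by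
  unfold Lm
  rw [LinearMap.det_toLin, Matrix.det_fin_two_of]

lemma TT_tr (p : ℝ) (a₁ a₂ a₃ a₄ : ℝ) (h : a₁ * a₄ - a₂ * a₃ = 1) (v : κ → P2) (k : κ) :
    TT p (tr a₁ a₂ a₃ a₄ v) k = TT p v k := by
  have hd : LinearMap.det (Lm a₁ a₂ a₃ a₄) = 1 := by
    rw [det_Lm]
    linarith
  have h1 := Measure.map_linearMap_addHaar_eq_smul_addHaar (volume : Measure P2)
    (f := Lm a₁ a₂ a₃ a₄) (by rw [hd]; exact one_ne_zero)
  rw [hd] at h1
  simp only [inv_one, abs_one, ENNReal.ofReal_one, one_smul] at h1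
  have hmeas : Measurable (Lm a₁ a₂ a₃ a₄) :=
    (LinearMap.continuous_of_finiteDimensional (Lm a₁ a₂ a₃ a₄)).measurable
  have hemb : MeasurableEmbedding (Lm a₁ a₂ a₃ a₄) := by
    have hb : Function.Bijective (Lm a₁ a₂ a₃ a₄) := by
      have := LinearMap.isUnit_iff_isUnit_det (Lm a₁ a₂ a₃ a₄)
      rw [hd] at this
      exact (Module.End.isUnit_iff _).1 (this.2 isUnit_one)
    exact (LinearEquiv.toContinuousLinearEquiv
      (LinearEquiv.ofBijective (Lm a₁ a₂ a₃ a₄) hb)).toHomeomorph.measurableEmbedding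
  have h2 := hemb.integral_map (μ := (volume : Measure P2))
    (fun x : P2 => Real.exp (-(Ph p v one x)) * tau p v k x)
  rw [h1] at h2
  unfold TT
  rw [h2]
  refine integral_congr_ae (Eventually.of_forall fun x => ?_)
  simp only [Ph, tau, ip_tr]

lemma main_w (h1 : S_K2) (h2 : S_K3) (h3 : S_K4) (h4 : S_K5) (p : ℝ) (hp : 1 < p) (hp2 : p < 2)
    (w : κ → P2) (hw : Spans w) (k : κ) (hk : w k = (0, 1)) (y : ℝ) (hy : 0 ≤ y) :
    FF p w (bu k y) ≤ FF p w one * (1 + p * TT p w k / FF p w one * y) ^ (-(1 / p)) := by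
  classical
  have hp0 : p ≠ 0 := by linarith
  set A : κ → ℝ := fun i => if i = k then 0 else (w i).1 with hA
  set B : κ → ℝ := fun i => if i = k then 0 else (w i).2 with hB
  have hne : ∃ i, A i ≠ 0 := by
    by_contra hcon
    push Not at hcon
    have h0 : ∀ i, (w i).1 = 0 := by
      intro i
      by_cases hi : i = k
      · rw [hi, hk]
      · have := hcon i
        simpa [hA, hi] using this
    obtain ⟨i, j, hij⟩ := hw
    apply hij
    unfold dt
    rw [h0 i, h0 j]
    ring
  have hPh : ∀ (y : ℝ) (x : P2), Ph p w (bu k y) x =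
      (∑ i, |A i * x.1 + B i * x.2| ^ p) + (1 + y) * |x.2| ^ p := by
    intro y x
    have e : (1 + y) * |x.2| ^ p = ∑ i, if i = k then (1 + y) * |x.2| ^ p else 0 := by
      rw [Finset.sum_ite_eq' Finset.univ k, if_pos (Finset.mem_univ k)]
    rw [e, ← Finset.sum_add_distrib]
    unfold Ph
    refine Finset.sum_congr rfl fun i _ => ?_
    by_cases hi : i = k
    · subst hi
      simp only [bu, Function.update_self, hA, hB, if_true, zero_mul, add_zero, abs_zero,
        Real.zero_rpow hp0, zero_add, ip, hk, one_mul]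
    · simp only [bu, Function.update_of_ne hi, hA, hB, if_neg hi, add_zero, ip, one_mul]
  have hPh1 : ∀ x : P2, Ph p w one x =
      (∑ i, |A i * x.1 + B i * x.2| ^ p) + 1 * |x.2| ^ p := by
    intro x
    have h5 := hPh 0 x
    rw [add_zero] at h5
    rw [← h5]
    unfold Ph bu one
    refine Finset.sum_congr rfl fun i _ => ?_
    by_cases hi : i = k
    · subst hi
      simp
    · simp [Function.update_of_ne hi]
  have htau : ∀ x : P2, tau p w k x = |x.2| ^ p := by
    intro x
    unfold tau ip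
    rw [hk]
    simp
  -- the integrals
  have f1 : FF p w (bu k y) = 2 / p * Real.Gamma (2 / p) * (2 / p *
      ∫ l in Ioi (lmin p A B), (l + (1 + y)) ^ (-(2 / p + 1)) * Wl p A B l) := by
    have e1 := (h2 κ p hp hp2 A B (1 + y) hne (by linarith)).1
    have e2 := (h3 κ p hp hp2 A B (1 + y) (2 / p) hne (by linarith)
      (by apply div_lt_div_of_pos_right <;> linarith)).2
    unfold FF
    simp only [hPh y]
    rw [e1, e2]
  have f2 : FF p w one = 2 / p * Real.Gamma (2 / p) * (2 / p *
      ∫ l in Ioi (lmin p A B), (l + 1) ^ (-(2 / p + 1)) * Wl p A B l) := by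
    have e1 := (h2 κ p hp hp2 A B 1 hne one_pos).1
    have e2 := (h3 κ p hp hp2 A B 1 (2 / p) hne one_pos
      (by apply div_lt_div_of_pos_right <;> linarith)).2
    unfold FF
    simp only [hPh1]
    rw [e1, e2]
  have f3 : TT p w k = 2 / p * (2 / p) * Real.Gamma (2 / p) * ((2 / p + 1) *
      ∫ l in Ioi (lmin p A B), (l + 1) ^ (-(2 / p + 2)) * Wl p A B l) := by
    have e1 := (h2 κ p hp hp2 A B 1 hne one_pos).2
    have e2 := (h3 κ p hp hp2 A B 1 (2 / p + 1) hne one_pos (by
      have : 1 / p < 2 / p := by apply div_lt_div_of_pos_right <;> linarith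
      linarith)).2
    have e3 : -(2 / p + 1 + 1) = -(2 / p + 2) := by ring
    rw [e3] at e2
    unfold TT
    simp only [hPh1, htau]
    rw [e1, e2]
  obtain ⟨k1, k2, k3, k4, k5, k6⟩ := h1 κ p hp hp2 A B hne
  have hint := (h3 κ p hp hp2 A B 1 (2 / p) hne one_pos
      (by apply div_lt_div_of_pos_right <;> linarith)).1
  have hom : ∀ l, (Wl p A B l ^ p) ^ (1 / p) = Wl p A B l := by
    intro l
    have h0 : 0 ≤ Wl p A B l := ENNReal.toReal_nonneg
    rw [one_div, Real.rpow_rpow_inv h0 hp0]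
  have hpos : 0 < ∫ l in Ioi (lmin p A B), (l + 1) ^ (-(2 / p + 1)) * Wl p A B l := by
    rw [setIntegral_pos_iff_support_of_nonneg_ae]
    · have hsub : Ioi (lmin p A B) ⊆ (Function.support fun l : ℝ =>
          (l + 1) ^ (-(2 / p + 1)) * Wl p A B l) ∩ Ioi (lmin p A B) := by
        intro l hl
        refine ⟨?_, hl⟩
        have h5 : 0 < l + 1 := by
          have : lmin p A B < l := hl
          linarith
        exact (mul_pos (Real.rpow_pos_of_pos h5 _) (k6 l hl)).ne'
      refine lt_of_lt_of_le ?_ (measure_mono hsub)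
      rw [Real.volume_Ioi]
      exact ENNReal.zero_lt_top
    · rw [EventuallyLE, ae_restrict_iff' measurableSet_Ioi]
      refine Eventually.of_forall fun l hl => ?_
      have h5 : 0 < l + 1 := by
        have : lmin p A B < l := hl
        linarith
      exact mul_nonneg (Real.rpow_nonneg h5.le _) ENNReal.toReal_nonneg
    · exact hint
  have hcont : ContinuousOn (fun l => Wl p A B l ^ p) (Ioi (lmin p A B)) :=
    (k2.subset Ioi_subset_Ici_self (convex_Ioi _)).continuousOn isOpen_Ioi
  have key := h4 p (lmin p A B) 1 (1 + y) (fun l => Wl p A B l ^ p) hp hp2 k1 one_pos (by linarith)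
    k2 (fun l _ => Real.rpow_nonneg ENNReal.toReal_nonneg _) hcont
    (by simp only [hom]; exact hint) (by simp only [hom]; exact hpos)
  simp only [hom] at key
  have hyy : 1 + y - 1 = y := by ring
  rw [hyy] at key
  rw [f1, f2, f3]
  set I := ∫ l in Ioi (lmin p A B), (l + 1) ^ (-(2 / p + 1)) * Wl p A B l with hI
  set I1 := ∫ l in Ioi (lmin p A B), (l + 1) ^ (-(2 / p + 2)) * Wl p A B l with hI1
  have hG : 0 < Real.Gamma (2 / p) := Real.Gamma_pos_of_pos (by positivity)
  have hpp : 0 < 2 / p := by positivity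
  have e : p * (2 / p * (2 / p) * Real.Gamma (2 / p) * ((2 / p + 1) * I1)) /
      (2 / p * Real.Gamma (2 / p) * (2 / p * I)) * y = p * (2 / p + 1) * y * I1 / I := by
    have hp' : 0 < p := by linarith
    field_simp
  rw [e]
  calc 2 / p * Real.Gamma (2 / p) * (2 / p *
        ∫ l in Ioi (lmin p A B), (l + (1 + y)) ^ (-(2 / p + 1)) * Wl p A B l)
      ≤ 2 / p * Real.Gamma (2 / p) * (2 / p *
        (I * (1 + p * (2 / p + 1) * y * I1 / I) ^ (-(1 / p)))) := by
        gcongr
    _ = _ := by ring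

/-- Task KEY. -/
theorem KEY (h1 : S_K2) (h2 : S_K3) (h3 : S_K4) (h4 : S_K5) (h5 : S_GL) : S_KEY := by
  classical
  intro κ _ p hp hp2 v hv k y hy
  have hp0 : p ≠ 0 := by linarith
  by_cases hk : v k = 0
  · have e1 : FF p v (bu k y) = FF p v one := by
      unfold FF
      congr 1
      funext x
      congr 2
      unfold Ph
      refine Finset.sum_congr rfl fun i _ => ?_
      by_cases hi : i = k
      · subst hi
        have h0 : |ip (v i) x| ^ p = 0 := by
          unfold ip
          rw [hk]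
          simp [Real.zero_rpow hp0]
        rw [h0, mul_zero, mul_zero]
      · simp only [bu, Function.update_of_ne hi, one]
    have e2 : TT p v k = 0 := by
      unfold TT tau ip
      rw [hk]
      simp [Real.zero_rpow hp0]
    rw [e1, e2]
    simp
  · obtain ⟨c, d, hcd⟩ : ∃ c d, v k = (c, d) := ⟨(v k).1, (v k).2, rfl⟩
    have hn : c ^ 2 + d ^ 2 ≠ 0 := by
      intro h0
      apply hk
      rw [hcd]
      have hc : c = 0 := by nlinarith [sq_nonneg c, sq_nonneg d]
      have hd : d = 0 := by nlinarith [sq_nonneg c, sq_nonneg d]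
      rw [hc, hd]
      rfl
    set n := c ^ 2 + d ^ 2 with hndef
    have hdet : d * (d / n) - (-c) * (c / n) = 1 := by
      field_simp
      rw [hndef]
      ring
    have hGL := fun b : κ → ℝ => (h5 κ p hp hp2.le v b d (-c) (c / n) (d / n)
      (by rw [hdet]; exact one_ne_zero)).1
    have hF : ∀ b : κ → ℝ, FF p (tr d (-c) (c / n) (d / n) v) b = FF p v b := by
      intro b
      have := hGL b
      rw [hdet, abs_one, inv_one, one_mul] at this
      exact this
    have hT := TT_tr p d (-c) (c / n) (d / n) hdet v k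
    have hsp : Spans (tr d (-c) (c / n) (d / n) v) := by
      obtain ⟨i, j, hij⟩ := hv
      refine ⟨i, j, ?_⟩
      have e : dt (tr d (-c) (c / n) (d / n) v i) (tr d (-c) (c / n) (d / n) v j) =
          (d * (d / n) - (-c) * (c / n)) * dt (v i) (v j) := by
        unfold dt tr
        ring
      rw [e, hdet, one_mul]
      exact hij
    have hwk : tr d (-c) (c / n) (d / n) v k = (0, 1) := by
      unfold tr
      rw [hcd]
      simp only [Prod.mk.injEq]
      constructor
      · ring
      · field_simp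
        rw [hndef]
    have hm := main_w h1 h2 h3 h4 p hp hp2 _ hsp k hwk y hy
    rw [hF, hF, hT] at hm
    exact hm

end H686PL
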